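import Pool.Agent.helper11.OFP.Spec

set_option autoImplicit false

open MeasureTheory

namespace Pool.Agent.OFP

open Pool.Agent.LOF

theorem BFM_sub (k j : ℕ) : Iv (k + 1) j ⊆ Iv k (j / 2) := by
  rintro t ⟨h1, h2⟩
  have e1 : t * 2 ^ (k + 1) = 2 * (t * 2 ^ k) := by
    rw [pow_succ]
    ring
  rw [e1] at h1 h2
  have h3 : (2 : ℝ) * ((j / 2 : ℕ) : ℝ) ≤ j := by
    have : 2 * (j / 2) ≤ j := by omega
    exact_mod_cast this
  have h4 : (j : ℝ) ≤ 2 * ((j / 2 : ℕ) : ℝ) + 1 := by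
    have : j ≤ 2 * (j / 2) + 1 := by omega
    exact_mod_cast this
  constructor
  · linarith
  · linarith

theorem BFM (hFSM : FSM_stmt) : BFM_stmt := by
  refine ⟨?_, ?_⟩
  · rintro m k j r ⟨h, h1, h2, h3, p, hp, q, hq, hpq, h4, h5⟩
    exact ⟨h, h1, h2, h3, p, hp, q, hq, hpq, BFM_sub k j h4, BFM_sub k j h5⟩
  · intro m r
    have hfin := hFSM r m
    have hK : ∀ x : ℝ × ℝ, ∃ K : ℕ, x.1 < x.2 → 1 < (x.2 - x.1) * 2 ^ K := by
      intro x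
      by_cases hx : x.1 < x.2
      · obtain ⟨K, hK⟩ := pow_unbounded_of_one_lt (1 / (x.2 - x.1)) (one_lt_two : (1 : ℝ) < 2)
        refine ⟨K, fun _ => ?_⟩
        have h1 : 0 < x.2 - x.1 := sub_pos.2 hx
        rw [div_lt_iff₀ h1] at hK
        linarith [mul_comm (x.2 - x.1) ((2 : ℝ) ^ K)]
      · exact ⟨0, fun h => absurd h hx⟩
    choose K hK using hK
    obtain ⟨N, hN⟩ := ((hfin.prod hfin).image K).bddAbove
    refine ⟨N, fun k hk j => ?_⟩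
    rintro ⟨h, h1, h2, h3, p, hp, q, hq, hpq, h4, h5⟩
    have hKN : K (p, q) ≤ N := hN ⟨(p, q), ⟨⟨h, h1, h2, h3, hp⟩, ⟨h, h1, h2, h3, hq⟩⟩, rfl⟩
    have h6 := hK (p, q) hpq
    have h7 : (2 : ℝ) ^ K (p, q) ≤ 2 ^ k := pow_le_pow_right₀ (by norm_num) (hKN.trans hk)
    have h8 : (q - p) * 2 ^ K (p, q) ≤ (q - p) * 2 ^ k := mul_le_mul_of_nonneg_left h7 (sub_pos.2 hpq).le
    have h9 := h4.1
    have h10 := h5.2
    have h11 : (q - p) * 2 ^ k = q * 2 ^ k - p * 2 ^ k := by ring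
    simp only at h6
    linarith

end Pool.Agent.OFP
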