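import Pool.Agent.helper11.OFP.Spec

set_option autoImplicit false

open MeasureTheory

namespace Pool.Agent.OFP

open Pool.Agent.LOF

theorem CRD_eps {m : ℕ} (t : Fin (m + 1) → ℝ) (h01 : ∀ i, 0 < t i ∧ t i < 1) (hmono : StrictMono t) :
    ∃ ε : ℝ, 0 < ε ∧ (∀ i, ε < t i ∧ ε < 1 - t i) ∧ ∀ i j, i < j → 2 * ε < t j - t i := by
  let δ : Fin (m + 1) × Fin (m + 1) → ℝ := fun x => if x.1 < x.2 then (t x.2 - t x.1) / 2 else
    min (t x.1) (1 - t x.1)
  have hδ : ∀ x, 0 < δ x := by
    intro x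
    show 0 < if x.1 < x.2 then (t x.2 - t x.1) / 2 else min (t x.1) (1 - t x.1)
    split_ifs with h
    · have := hmono h
      linarith
    · exact lt_min (h01 _).1 (by linarith [(h01 x.1).2])
  obtain ⟨x₀, hx₀⟩ := Finite.exists_min δ
  refine ⟨δ x₀ / 2, by linarith [hδ x₀], fun i => ?_, fun i j hij => ?_⟩
  · have h1 : δ x₀ ≤ min (t i) (1 - t i) := by
      have := hx₀ (i, i)
      have e1 : δ (i, i) = min (t i) (1 - t i) := if_neg (lt_irrefl i)
      rwa [e1] at this
    have h2 := hδ x₀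
    have h3 := h1.trans (min_le_left _ _)
    have h4 := h1.trans (min_le_right _ _)
    constructor
    · linarith
    · linarith
  · have h1 : δ x₀ ≤ (t j - t i) / 2 := by
      have := hx₀ (i, j)
      have e1 : δ (i, j) = (t j - t i) / 2 := if_pos hij
      rwa [e1] at this
    have := hmono hij
    linarith

theorem CRD_many (S : Set ℝ) (m : ℕ) (h : ¬ (S.Finite ∧ S.ncard ≤ m)) :
    ∃ t : Fin (m + 1) → ℝ, StrictMono t ∧ ∀ i, t i ∈ S := by
  have hA : ∃ A : Finset ℝ, (A : Set ℝ) ⊆ S ∧ A.card = m + 1 := by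
    by_cases hS : S.Finite
    · have h1 : m + 1 ≤ hS.toFinset.card := by
        have h2 : ¬ S.ncard ≤ m := fun h2 => h ⟨hS, h2⟩
        rw [Set.ncard_eq_toFinset_card S hS] at h2
        omega
      obtain ⟨A, hA1, hA2⟩ := Finset.exists_subset_card_eq h1
      exact ⟨A, fun x hx => hS.mem_toFinset.1 (hA1 hx), hA2⟩
    · obtain ⟨A, h1, h2⟩ := Set.Infinite.exists_subset_card_eq hS (m + 1)
      exact ⟨A, h1, h2⟩
  obtain ⟨A, h1, h2⟩ := hA
  refine ⟨A.orderEmbOfFin h2, (A.orderEmbOfFin h2).strictMono, fun i => h1 (A.orderEmbOfFin_mem h2 i)⟩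

theorem CRD : CRD_stmt := by
  intro S m hS
  constructor
  · rintro ⟨hfin, hcard⟩ f g hfg hdis
    by_contra hcon
    push Not at hcon
    choose t ht1 ht2 ht3 using hcon
    have hmono : StrictMono t := by
      intro i j hij
      have h1 : ((g i : ℚ) : ℝ) < (f j : ℝ) := by exact_mod_cast hdis i j hij
      linarith [ht3 i, ht2 j]
    have h1 : (Set.range t).ncard ≤ S.ncard := Set.ncard_le_ncard (by
      rintro x ⟨i, rfl⟩
      exact ht1 i) hfin
    have h2 : (Set.range t).ncard = m + 1 := by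
      rw [← Set.image_univ, Set.ncard_image_of_injective _ hmono.injective, Set.ncard_univ, Nat.card_eq_fintype_card,
        Fintype.card_fin]
    omega
  · intro h
    by_contra hcon
    obtain ⟨t, hmono, ht⟩ := CRD_many S m hcon
    obtain ⟨ε, hε, h1, h2⟩ := CRD_eps t (fun i => hS _ (ht i)) hmono
    have hf : ∀ i, ∃ q : ℚ, t i - ε < q ∧ (q : ℝ) < t i := fun i => exists_rat_btwn (by linarith)
    have hg : ∀ i, ∃ q : ℚ, t i < q ∧ (q : ℝ) < t i + ε := fun i => exists_rat_btwn (by linarith)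
    choose f hf1 hf2 using hf
    choose g hg1 hg2 using hg
    have h3 : ∀ i, 0 < f i ∧ f i ≤ g i ∧ g i < 1 := by
      intro i
      refine ⟨?_, ?_, ?_⟩
      · have : (0 : ℝ) < f i := by linarith [(h1 i).1, hf1 i]
        exact_mod_cast this
      · have : ((f i : ℚ) : ℝ) ≤ g i := by linarith [hf2 i, hg1 i]
        exact_mod_cast this
      · have : ((g i : ℚ) : ℝ) < 1 := by linarith [(h1 i).2, hg2 i]
        exact_mod_cast this
    have h4 : ∀ i j, i < j → g i < f j := by
      intro i j hij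
      have : ((g i : ℚ) : ℝ) < f j := by linarith [h2 i j hij, hg2 i, hf1 j]
      exact_mod_cast this
    obtain ⟨i, hi⟩ := h f g h3 h4
    exact hi ⟨t i, ht i, (hf2 i).le, (hg1 i).le⟩

end Pool.Agent.OFP
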