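import Pool.Agent.helper11.OFP.Spec

set_option autoImplicit false

open MeasureTheory

namespace Pool.Agent.OFP

open Pool.Agent.LOF

/-- the union of a chain of finite sets with at most `m` points -/
theorem FSM_chain (𝓕 : Set (Set ℝ)) (m : ℕ) (hc : ∀ A ∈ 𝓕, ∀ B ∈ 𝓕, A ⊆ B ∨ B ⊆ A)
    (hf : ∀ A ∈ 𝓕, A.Finite ∧ A.ncard ≤ m) : {t : ℝ | ∃ A ∈ 𝓕, t ∈ A}.Finite := by
  classical
  by_contra hinf
  obtain ⟨s, hs, hcard⟩ := Set.Infinite.exists_subset_card_eq (Set.not_finite.1 hinf) (m + 1)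
  have key : ∀ s : Finset ℝ, (∀ t ∈ s, ∃ A ∈ 𝓕, t ∈ A) → s = ∅ ∨ ∃ A ∈ 𝓕, ∀ t ∈ s, t ∈ A := by
    intro s
    induction s using Finset.induction_on with
    | empty => intro _; exact Or.inl rfl
    | insert a s ha ih =>
      intro h
      right
      obtain ⟨A, hA, haA⟩ := h a (Finset.mem_insert_self a s)
      rcases ih (fun t ht => h t (Finset.mem_insert_of_mem ht)) with h0 | ⟨B, hB, hBs⟩
      · refine ⟨A, hA, fun t ht => ?_⟩
        rcases Finset.mem_insert.1 ht with rfl | ht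
        · exact haA
        · rw [h0] at ht
          exact absurd ht (Finset.notMem_empty t)
      · rcases hc A hA B hB with h1 | h1
        · refine ⟨B, hB, fun t ht => ?_⟩
          rcases Finset.mem_insert.1 ht with rfl | ht
          · exact h1 haA
          · exact hBs t ht
        · refine ⟨A, hA, fun t ht => ?_⟩
          rcases Finset.mem_insert.1 ht with rfl | ht
          · exact haA
          · exact h1 (hBs t ht)
  rcases key s (fun t ht => hs ht) with h0 | ⟨A, hA, hAs⟩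
  · rw [h0] at hcard
    simp at hcard
  · have h1 := hf A hA
    have h2 : (s : Set ℝ).ncard ≤ A.ncard := Set.ncard_le_ncard (fun t ht => hAs t ht) h1.1
    rw [Set.ncard_coe_finset, hcard] at h2
    omega

theorem FSM (hCHN : CHN_stmt) (hHCX : HCX_stmt) : FSM_stmt := by
  intro r m
  have h1 := FSM_chain {A | ∃ h : F, h ≠ 1 ∧ (FH r h).Finite ∧ (FH r h).ncard ≤ m ∧ A = FH r h} m (by
    rintro A ⟨h, _, _, _, rfl⟩ B ⟨h', _, _, _, rfl⟩
    have hanti : ∀ C D : Subgroup F, C ≤ D → Fixp (D : Set F) ⊆ Fixp (C : Set F) := by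
      intro C D hCD t ht
      exact ⟨ht.1, ht.2.1, fun g hg => ht.2.2 g (hCD hg)⟩
    rcases hCHN r (Hc r h) (Hc r h') (hHCX r h).1 (hHCX r h').1 with h2 | h2
    · exact Or.inr (hanti _ _ h2)
    · exact Or.inl (hanti _ _ h2)) (by
    rintro A ⟨h, _, h2, h3, rfl⟩
    exact ⟨h2, h3⟩)
  refine h1.subset ?_
  rintro t ⟨h, h2, h3, h4, h5⟩
  exact ⟨FH r h, ⟨h, h2, h3, h4, rfl⟩, h5⟩

end Pool.Agent.OFP
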