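import Pool.Agent.helper11.OFP.Spec

set_option autoImplicit false

open MeasureTheory

namespace Pool.Agent.OFP

open Pool.Agent.LOF

/-- the closure in stages -/
def HCS_S (r : LO F) (h : F) : ℕ → Set F
  | 0 => {h}
  | n + 1 => {a | a ∈ HCS_S r h n ∨ a = 1 ∨ (∃ b, b ∈ HCS_S r h n ∧ a = b⁻¹) ∨
      (∃ b c, b ∈ HCS_S r h n ∧ c ∈ HCS_S r h n ∧ a = b * c) ∨
      ∃ b c, b ∈ HCS_S r h n ∧ c ∈ HCS_S r h n ∧ r.1 (b, a) = true ∧ r.1 (a, c) = true}

theorem HCS_mono (r : LO F) (h : F) : Monotone (HCS_S r h) := by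
  refine monotone_nat_of_le_succ fun n a ha => ?_
  exact Or.inl ha

/-- the closure -/
def HCS_C (r : LO F) (h : F) : Subgroup F where
  carrier := {a | ∃ n, a ∈ HCS_S r h n}
  one_mem' := ⟨1, Or.inr (Or.inl rfl)⟩
  mul_mem' := by
    rintro a b ⟨n, hn⟩ ⟨m, hm⟩
    exact ⟨max n m + 1, Or.inr (Or.inr (Or.inr (Or.inl ⟨a, b, HCS_mono r h (le_max_left n m) hn,
      HCS_mono r h (le_max_right n m) hm, rfl⟩)))⟩
  inv_mem' := by
    rintro a ⟨n, hn⟩
    exact ⟨n + 1, Or.inr (Or.inr (Or.inl ⟨a, hn, rfl⟩))⟩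

theorem HCS_mem (r : LO F) (h a : F) : a ∈ HCS_C r h ↔ ∃ n, a ∈ HCS_S r h n := Iff.rfl

theorem HCS_cvx (r : LO F) (h : F) : Cvx r (HCS_C r h) := by
  intro a ha b hb c h1 h2
  obtain ⟨n, hn⟩ := (HCS_mem r h a).1 ha
  obtain ⟨m, hm⟩ := (HCS_mem r h b).1 hb
  exact (HCS_mem r h c).2 ⟨max n m + 1, Or.inr (Or.inr (Or.inr (Or.inr ⟨a, b,
    HCS_mono r h (le_max_left n m) hn, HCS_mono r h (le_max_right n m) hm, h1, h2⟩)))⟩

theorem HCS_eq (r : LO F) (h : F) : Hc r h = HCS_C r h := by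
  refine le_antisymm (sInf_le ⟨HCS_cvx r h, (HCS_mem r h h).2 ⟨0, rfl⟩⟩) ?_
  refine le_sInf ?_
  rintro C ⟨hC, hh⟩ a ha
  obtain ⟨n, hn⟩ := (HCS_mem r h a).1 ha
  have key : ∀ n a, a ∈ HCS_S r h n → a ∈ C := by
    intro n
    induction n with
    | zero =>
      intro a ha
      have : a = h := ha
      rw [this]
      exact hh
    | succ n ih =>
      rintro a (ha | ha | ⟨b, hb, ha⟩ | ⟨b, c, hb, hc, ha⟩ | ⟨b, c, hb, hc, h1, h2⟩)
      · exact ih a ha
      · rw [ha]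
        exact C.one_mem
      · rw [ha]
        exact C.inv_mem (ih b hb)
      · rw [ha]
        exact C.mul_mem (ih b hb) (ih c hc)
      · exact hC b (ih b hb) c (ih c hc) a h1 h2
  exact key n a hn

theorem HCS_rm (a b : F) : MeasurableSet {r : LO F | r.1 (a, b) = true} := by
  have h1 : Measurable (fun r : LO F => r.1 (a, b)) := (measurable_pi_apply (a, b)).comp measurable_subtype_coe
  exact h1 (measurableSet_singleton true)

theorem HCS_meas (h : F) (n : ℕ) : ∀ a : F, MeasurableSet {r : LO F | a ∈ HCS_S r h n} := by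
  induction n with
  | zero =>
    intro a
    exact MeasurableSet.const (a = h)
  | succ n ih =>
    intro a
    have e1 : {r : LO F | a ∈ HCS_S r h (n + 1)} = {r : LO F | a ∈ HCS_S r h n} ∪ ({r : LO F | a = 1} ∪
        ((⋃ b : F, {r : LO F | b ∈ HCS_S r h n} ∩ {r : LO F | a = b⁻¹}) ∪
        ((⋃ b : F, ⋃ c : F, {r : LO F | b ∈ HCS_S r h n} ∩ ({r : LO F | c ∈ HCS_S r h n} ∩ {r : LO F | a = b * c})) ∪
        (⋃ b : F, ⋃ c : F, {r : LO F | b ∈ HCS_S r h n} ∩ ({r : LO F | c ∈ HCS_S r h n} ∩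
          ({r : LO F | r.1 (b, a) = true} ∩ {r : LO F | r.1 (a, c) = true})))))) := by
      ext r
      simp only [Set.mem_setOf_eq, Set.mem_union, Set.mem_iUnion, Set.mem_inter_iff]
      exact Iff.rfl
    rw [e1]
    refine (ih a).union ((MeasurableSet.const _).union ((MeasurableSet.iUnion fun b =>
      (ih b).inter (MeasurableSet.const _)).union ((MeasurableSet.iUnion fun b => MeasurableSet.iUnion fun c =>
      (ih b).inter ((ih c).inter (MeasurableSet.const _))).union (MeasurableSet.iUnion fun b =>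
      MeasurableSet.iUnion fun c => (ih b).inter ((ih c).inter ((HCS_rm b a).inter (HCS_rm a c)))))))

theorem HCS : HCS_stmt := by
  intro a h
  have e1 : {r : LO F | a ∈ Hc r h} = ⋃ n, {r : LO F | a ∈ HCS_S r h n} := by
    ext r
    rw [Set.mem_setOf_eq, HCS_eq, HCS_mem, Set.mem_iUnion]
    exact Iff.rfl
  rw [e1]
  exact MeasurableSet.iUnion fun n => HCS_meas h n a

end Pool.Agent.OFP
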